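import Mathlib
import Pool.Agent.Q163.BN.Sum

set_option autoImplicit false
set_option linter.unusedSectionVars false

/-!
# The Borsuk number of a direct sum of matroids

`f(M ⊕ M') = min (f(M), f(M'))` for all finite matroids `M` and `M'`.

The pairs of bases of `M` at the maximal distance are the pairs of disjoint bases of another matroid
`N`, and the least number of colours which separate the disjoint bases of a matroid `N` of positive
rank with two disjoint bases is the minimum of `|E \ C| - 2 (r(E) - r(C)) + 2` over the sets `C`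
which do not span: a theorem of Lovász-Kneser type, proved with the octahedral Tucker lemma.
-/

namespace Pool.Agent.Results.MP_12cbfc_co.MinFormula

open Pool.Agent.Q163.BN

/-- The distance of two bases: the number of elements of the symmetric difference. -/
noncomputable def dst {α : Type} (B B' : Set α) : ℕ := (symmDiff B B').ncard

/-- The diameter of the set of bases of a matroid. -/
noncomputable def diam {α : Type} (M : Matroid α) : ℕ :=
  sSup {d : ℕ | ∃ B B' : Set α, M.IsBase B ∧ M.IsBase B' ∧ dst B B' = d}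

/-- All classes of the partition `s` of the set of bases have a diameter which is less than the
diameter of the set of bases. -/
def SmallClasses {α : Type} (M : Matroid α) (s : Setoid {B : Set α // M.IsBase B}) : Prop :=
  ∀ B B' : {B : Set α // M.IsBase B}, s B B' → dst B.1 B'.1 < diam M

/-- The Borsuk number of a matroid: the least number of classes of a partition of the set of bases
into classes of smaller diameter, and `∞` if there is no such partition. -/
noncomputable def borsuk {α : Type} (M : Matroid α) : ℕ∞ :=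
  sInf {k : ℕ∞ | ∃ s : Setoid {B : Set α // M.IsBase B}, SmallClasses M s ∧
    k = (Nat.card (Quotient s) : ℕ∞)}

section proofs

variable {α β : Type} [Finite α] [Finite β]

theorem borsuk_le_iff (M : Matroid α) (k : ℕ) : borsuk M ≤ (k : ℕ∞) ↔
    ∃ f : {B : Set α // M.IsBase B} → Fin k, ∀ B B', f B = f B' → dst B.1 B'.1 < diam M := by
  constructor
  · intro h
    have hne : {k : ℕ∞ | ∃ s : Setoid {B : Set α // M.IsBase B}, SmallClasses M s ∧
        k = (Nat.card (Quotient s) : ℕ∞)}.Nonempty := by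
      by_contra hcon
      rw [Set.not_nonempty_iff_eq_empty] at hcon
      unfold borsuk at h
      rw [hcon, sInf_empty] at h
      exact absurd h (by simp)
    obtain ⟨s, hs, hk⟩ := csInf_mem hne
    have hk' : borsuk M = (Nat.card (Quotient s) : ℕ∞) := hk
    rw [hk'] at h
    have hle : Nat.card (Quotient s) ≤ k := by exact_mod_cast h
    let e : Quotient s ≃ Fin (Nat.card (Quotient s)) := Finite.equivFin _
    refine ⟨fun B => Fin.castLE hle (e (Quotient.mk s B)), fun B B' hBB => hs B B' ?_⟩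
    have h1 : e (Quotient.mk s B) = e (Quotient.mk s B') := Fin.castLE_injective hle hBB
    exact Quotient.exact (e.injective h1)
  · rintro ⟨f, hf⟩
    have h1 : borsuk M ≤ (Nat.card (Quotient (Setoid.ker f)) : ℕ∞) := by
      apply sInf_le
      refine ⟨Setoid.ker f, ?_, rfl⟩
      intro B B' hBB
      exact hf B B' hBB
    refine h1.trans ?_
    have h2 : Nat.card (Quotient (Setoid.ker f)) ≤ Nat.card (Fin k) :=
      Nat.card_le_card_of_injective _ (Setoid.kerLift_injective f)
    rw [Nat.card_fin] at h2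
    exact_mod_cast h2

/-- a set as a finset -/
noncomputable def tF (B : Set α) : Finset α := B.toFinite.toFinset

theorem coe_tF (B : Set α) : ((tF B : Finset α) : Set α) = B := Set.Finite.coe_toFinset _

theorem tF_coe [DecidableEq α] (B : Finset α) : tF (B : Set α) = B := by
  apply Finset.coe_injective
  exact coe_tF _

theorem dst_eq [Fintype α] [DecidableEq α] (M : Matroid α) (B B' : Set α) (h : M.IsBase B)
    (h' : M.IsBase B') : dst B B' = 2 * (tF B \ tF B').card := by
  have e1 : M.IsBase ((tF B : Finset α) : Set α) := by rw [coe_tF]; exact h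
  have e2 : M.IsBase ((tF B' : Finset α) : Set α) := by rw [coe_tF]; exact h'
  have h1 := sdiff_comm' M _ _ e1 e2
  have h2 : (symmDiff B B').ncard = (symmDiff (tF B) (tF B')).card := by
    rw [← Set.ncard_coe_finset, Finset.coe_symmDiff, coe_tF, coe_tF]
  unfold dst
  rw [h2]
  have h3 : symmDiff (tF B) (tF B') = (tF B \ tF B') ∪ (tF B' \ tF B) := rfl
  rw [h3, Finset.card_union_of_disjoint, ← h1]
  · ring
  · rw [Finset.disjoint_left]
    intro x hx hx'
    exact (Finset.mem_sdiff.1 hx').2 (Finset.mem_sdiff.1 hx).1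

theorem isGreatest_diam [Fintype α] [DecidableEq α] (M : Matroid α) (A C₁ C₂ : Finset α)
    (h₁ : M.IsBase (C₁ : Set α)) (h₂ : M.IsBase (C₂ : Set α))
    (hk : rN M A Finset.univ ≤ (C₁ \ C₂).card) :
    IsGreatest {d : ℕ | ∃ B B' : Set α, M.IsBase B ∧ M.IsBase B' ∧ dst B B' = d}
      (2 * rN M A Finset.univ) := by
  constructor
  · refine ⟨C₁, C₂, h₁, h₂, ?_⟩
    rw [dst_eq M _ _ h₁ h₂, tF_coe, tF_coe]
    have := dist_le M A C₁ C₂ h₁ h₂
    omega
  · rintro d ⟨B, B', h, h', rfl⟩
    rw [dst_eq M _ _ h h']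
    have e1 : M.IsBase ((tF B : Finset α) : Set α) := by rw [coe_tF]; exact h
    have e2 : M.IsBase ((tF B' : Finset α) : Set α) := by rw [coe_tF]; exact h'
    have := dist_le M A _ _ e1 e2
    omega

theorem diam_eq [Fintype α] [DecidableEq α] (M : Matroid α) (A C₁ C₂ : Finset α)
    (h₁ : M.IsBase (C₁ : Set α)) (h₂ : M.IsBase (C₂ : Set α))
    (hk : rN M A Finset.univ ≤ (C₁ \ C₂).card) : diam M = 2 * rN M A Finset.univ :=
  (isGreatest_diam M A C₁ C₂ h₁ h₂ hk).csSup_eq

theorem ncard_sum (S : Set (α ⊕ β)) :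
    S.ncard = (Sum.inl ⁻¹' S).ncard + (Sum.inr ⁻¹' S).ncard := by
  conv_lhs => rw [← Set.image_preimage_inl_union_image_preimage_inr S]
  rw [Set.ncard_union_eq, Set.ncard_image_of_injective _ Sum.inl_injective,
    Set.ncard_image_of_injective _ Sum.inr_injective]
  · rw [Set.disjoint_left]
    rintro _ ⟨a, _, rfl⟩ ⟨b, _, hb⟩
    exact absurd hb (by simp)

theorem dst_sum (B B' : Set (α ⊕ β)) :
    dst B B' = dst (Sum.inl ⁻¹' B) (Sum.inl ⁻¹' B') + dst (Sum.inr ⁻¹' B) (Sum.inr ⁻¹' B') := by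
  unfold dst
  rw [ncard_sum]
  rfl

/-- the union of a set of each side -/
def jn (B : Set α) (B' : Set β) : Set (α ⊕ β) := Sum.inl '' B ∪ Sum.inr '' B'

theorem inl_jn (B : Set α) (B' : Set β) : Sum.inl ⁻¹' (jn B B') = B := by
  ext x; simp [jn]

theorem inr_jn (B : Set α) (B' : Set β) : Sum.inr ⁻¹' (jn B B') = B' := by
  ext x; simp [jn]

theorem isBase_jn {M : Matroid α} {M' : Matroid β} {B : Set α} {B' : Set β} (h : M.IsBase B)
    (h' : M'.IsBase B') : (M.sum M').IsBase (jn B B') := by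
  rw [Matroid.sum_isBase_iff, inl_jn, inr_jn]
  exact ⟨h, h'⟩

theorem diam_sum [Fintype α] [DecidableEq α] [Fintype β] [DecidableEq β]
    (M : Matroid α) (M' : Matroid β) (A C₁ C₂ : Finset α)
    (h₁ : M.IsBase (C₁ : Set α)) (h₂ : M.IsBase (C₂ : Set α))
    (hk : rN M A Finset.univ ≤ (C₁ \ C₂).card) (A' C₁' C₂' : Finset β)
    (h₁' : M'.IsBase (C₁' : Set β)) (h₂' : M'.IsBase (C₂' : Set β))
    (hk' : rN M' A' Finset.univ ≤ (C₁' \ C₂').card) :
    diam (M.sum M') = 2 * rN M A Finset.univ + 2 * rN M' A' Finset.univ := by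
  obtain ⟨⟨B₁, B₂, a1, a2, a3⟩, b1⟩ := isGreatest_diam M A C₁ C₂ h₁ h₂ hk
  obtain ⟨⟨B₁', B₂', a1', a2', a3'⟩, b1'⟩ := isGreatest_diam M' A' C₁' C₂' h₁' h₂' hk'
  have hG : IsGreatest {d : ℕ | ∃ B B' : Set (α ⊕ β), (M.sum M').IsBase B ∧
      (M.sum M').IsBase B' ∧ dst B B' = d}
      (2 * rN M A Finset.univ + 2 * rN M' A' Finset.univ) := by
    constructor
    · refine ⟨jn B₁ B₁', jn B₂ B₂', isBase_jn a1 a1', isBase_jn a2 a2', ?_⟩
      rw [dst_sum, inl_jn, inl_jn, inr_jn, inr_jn, a3, a3']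
    · rintro d ⟨B, B', h, h', rfl⟩
      rw [Matroid.sum_isBase_iff] at h h'
      rw [dst_sum]
      have c1 := b1 ⟨_, _, h.1, h'.1, rfl⟩
      have c2 := b1' ⟨_, _, h.2, h'.2, rfl⟩
      omega
  exact hG.csSup_eq

/-- colourings of one matroid from a set `C` -/
theorem col_of_set [Fintype α] [DecidableEq α] (M : Matroid α) (A C₁ C₂ : Finset α)
    (h₁ : M.IsBase (C₁ : Set α)) (h₂ : M.IsBase (C₂ : Set α))
    (hk : rN M A Finset.univ ≤ (C₁ \ C₂).card) (k : ℕ)
    (hC : ∃ C : Finset α, rN M A C < rN M A Finset.univ ∧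
      (Finset.univ \ C).card + 2 * rN M A C + 2 ≤ k + 2 * rN M A Finset.univ) :
    borsuk M ≤ (k : ℕ∞) := by
  obtain ⟨C, hC1, hC2⟩ := hC
  obtain ⟨f, hf1, hf2⟩ := kneser_upper M A C₁ C₂ h₁ h₂ hk C hC1 k hC2
  rw [borsuk_le_iff]
  refine ⟨fun B => ⟨f (tF B.1), hf1 _⟩, fun B B' hBB => ?_⟩
  have e : f (tF B.1) = f (tF B'.1) := congrArg Fin.val hBB
  have e1 : M.IsBase ((tF B.1 : Finset α) : Set α) := by rw [coe_tF]; exact B.2
  have e2 : M.IsBase ((tF B'.1 : Finset α) : Set α) := by rw [coe_tF]; exact B'.2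
  rw [dst_eq M _ _ B.2 B'.2, diam_eq M A C₁ C₂ h₁ h₂ hk]
  by_contra hcon
  exact hf2 _ _ e1 e2 (by omega) e

theorem main (M : Matroid α) (M' : Matroid β) (k : ℕ) :
    borsuk (M.sum M') ≤ (k : ℕ∞) ↔ borsuk M ≤ (k : ℕ∞) ∨ borsuk M' ≤ (k : ℕ∞) := by
  classical
  have _ : Fintype α := Fintype.ofFinite α
  have _ : Fintype β := Fintype.ofFinite β
  obtain ⟨A, C₁, C₂, h₁, h₂, hk⟩ := exists_A M
  obtain ⟨A', C₁', C₂', h₁', h₂', hk'⟩ := exists_A M'
  have d1 := diam_eq M A C₁ C₂ h₁ h₂ hk
  have d2 := diam_eq M' A' C₁' C₂' h₁' h₂' hk'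
  have d3 := diam_sum M M' A C₁ C₂ h₁ h₂ hk A' C₁' C₂' h₁' h₂' hk'
  have g1 := isGreatest_diam M A C₁ C₂ h₁ h₂ hk
  have g2 := isGreatest_diam M' A' C₁' C₂' h₁' h₂' hk'
  constructor
  · intro h
    rw [borsuk_le_iff] at h
    obtain ⟨f, hf⟩ := h
    have hb0 : (M.sum M').IsBase (jn (C₁ : Set α) (C₁' : Set β)) := isBase_jn h₁ h₁'
    let g : Finset α → Finset β → Fin k := fun B B' =>
      if h : (M.sum M').IsBase (jn (B : Set α) (B' : Set β)) then f ⟨_, h⟩ else f ⟨_, hb0⟩
    have hg := kneser_sum M M' A C₁ C₂ h₁ h₂ hk A' C₁' C₂' h₁' h₂' hk' k g (by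
      intro B₁ B₂ B₁' B₂' b1 b2 b1' b2' e1 e2 heq
      have j1 : (M.sum M').IsBase (jn (B₁ : Set α) (B₁' : Set β)) := isBase_jn b1 b1'
      have j2 : (M.sum M').IsBase (jn (B₂ : Set α) (B₂' : Set β)) := isBase_jn b2 b2'
      simp only [g] at heq
      rw [dif_pos j1, dif_pos j2] at heq
      have h3 := hf _ _ heq
      simp only at h3
      rw [dst_sum, inl_jn, inl_jn, inr_jn, inr_jn, d3, dst_eq M _ _ b1 b2, dst_eq M' _ _ b1' b2',
        tF_coe, tF_coe, tF_coe, tF_coe] at h3
      omega)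
    rcases hg with hg | hg
    · left
      exact col_of_set M A C₁ C₂ h₁ h₂ hk k hg
    · right
      exact col_of_set M' A' C₁' C₂' h₁' h₂' hk' k hg
  · rintro (h | h)
    · rw [borsuk_le_iff] at h
      obtain ⟨f, hf⟩ := h
      rw [borsuk_le_iff]
      refine ⟨fun B => f ⟨Sum.inl ⁻¹' B.1, (Matroid.sum_isBase_iff.1 B.2).1⟩,
        fun B B' hBB => ?_⟩
      have h3 := hf _ _ hBB
      simp only at h3
      have h4 := g2.2 ⟨_, _, (Matroid.sum_isBase_iff.1 B.2).2, (Matroid.sum_isBase_iff.1 B'.2).2, rfl⟩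
      rw [dst_sum, d3]
      omega
    · rw [borsuk_le_iff] at h
      obtain ⟨f, hf⟩ := h
      rw [borsuk_le_iff]
      refine ⟨fun B => f ⟨Sum.inr ⁻¹' B.1, (Matroid.sum_isBase_iff.1 B.2).2⟩,
        fun B B' hBB => ?_⟩
      have h3 := hf _ _ hBB
      simp only at h3
      have h4 := g1.2 ⟨_, _, (Matroid.sum_isBase_iff.1 B.2).1, (Matroid.sum_isBase_iff.1 B'.2).1, rfl⟩
      rw [dst_sum, d3]
      omega

end proofs

/-- **The Borsuk number of a direct sum is the minimum of the Borsuk numbers of the summands**, for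
all finite matroids; the inequality is never strict. -/
theorem result {α β : Type} [Finite α] [Finite β] (M : Matroid α) (M' : Matroid β) :
    borsuk (M.sum M') = min (borsuk M) (borsuk M') := by
  apply eq_of_forall_ge_iff
  intro c
  rw [min_le_iff]
  induction c using ENat.recTopCoe with
  | top => simp
  | coe k => exact main M M' k

end Pool.Agent.Results.MP_12cbfc_co.MinFormula
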